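import Mathlib
import Pool.Agent.Lib.MP_107960_al.H17.Final
import Pool.Agent.Lib.MP_107960_al.H95.BdF

set_option autoImplicit false

namespace Pool.Agent.Results.MP_107960_al.Exponent

open Pool.Agent.Lib.MP_107960_al

/-- If all commutators `x⁻¹ y⁻¹ x y` of a group satisfy `c ^ 3 = 1`, then the derived subgroup has
finite exponent, dividing `3 ^ 741`. -/
theorem result {G : Type*} [Group G] (law : ∀ x y : G, (x⁻¹ * y⁻¹ * x * y) ^ 3 = 1) :
    ∀ g ∈ commutator G, g ^ (3 ^ 741) = 1 :=
  (H17.main_of_products H95.ml_r6 H95.ml_r6p H95.ml_r5 H95.step_II1 H95.step_II2 H95.step_II3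
    H95.step_II4 H95.step_CI G law).2

end Pool.Agent.Results.MP_107960_al.Exponent
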